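import Pool.Agent.H817R5.EP.Stubs

/-!
# Erdos problem 676 (MP_1626ca_nt): the covariance over a full period
-/

set_option autoImplicit false

open Finset

namespace Pool.Agent.H311R5.EP

open Pool.Agent.H817R5.EP

open Classical in
/-- The local factor of `ind`. -/
noncomputable def chi (a : ℕ → ℕ) (q n : ℕ) : ℝ := if n % q ^ 2 < a q then 1 else 0

lemma ind_eq (a : ℕ → ℕ) (T : Finset ℕ) (n : ℕ) : ind a T n = ∏ q ∈ T, chi a q n := by
  classical
  unfold ind chi
  rw [Finset.prod_boole]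

lemma chi_mod (a : ℕ → ℕ) (q n r : ℕ) : chi a q (n % q ^ 2 + r) = chi a q (n + r) := by
  unfold chi
  rw [Nat.mod_add_mod]

/-- local sum -/
lemma loc_one (hper : St_PER) (a : ℕ → ℕ) (q r : ℕ) (hq : 0 < q) (ha : a q ≤ q ^ 2) :
    ∑ y ∈ range (q ^ 2), chi a q (y + r) = a q := by
  classical
  have h := (hper (q ^ 2) 0 0 (fun n => chi a q n) (by positivity)
    (by intro n; simpa using chi_mod a q n 0)).2.2 r
  rw [h]
  have h1 : ∀ y ∈ range (q ^ 2), chi a q y = if y < a q then 1 else 0 := by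
    intro y hy
    unfold chi
    rw [Nat.mod_eq_of_lt (mem_range.mp hy)]
  rw [sum_congr rfl h1, sum_boole]
  congr 1
  have h2 : filter (fun y => y < a q) (range (q ^ 2)) = range (a q) := by
    ext y
    simp only [mem_filter, mem_range]
    omega
  rw [h2, card_range]

/-- CRT, normalised -/
lemma crt' (hcrt : St_CRT) (U : Finset ℕ) (f : ℕ → ℕ → ℝ) (hU : ∀ q ∈ U, q.Prime)
    (hf : ∀ q ∈ U, ∀ n, f q (n % q ^ 2) = f q n) :
    ∑ y ∈ range (∏ q ∈ U, q ^ 2), ∏ q ∈ U, f q y =
      (∏ q ∈ U, (q : ℝ) ^ 2) * ∏ q ∈ U, ((∑ y ∈ range (q ^ 2), f q y) / (q : ℝ) ^ 2) := by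
  rw [hcrt U f hU hf, ← prod_mul_distrib]
  apply prod_congr rfl
  intro q hq
  have : (q : ℝ) ≠ 0 := by exact_mod_cast (hU q hq).ne_zero
  field_simp

/-- the local function -/
noncomputable def fl (a : ℕ → ℕ) (T T' : Finset ℕ) (r s q y : ℕ) : ℝ :=
  (if q ∈ T then chi a q (y + r) else 1) * (if q ∈ T' then chi a q (y + s) else 1)

lemma fl_mod (a : ℕ → ℕ) (T T' : Finset ℕ) (r s q n : ℕ) :
    fl a T T' r s q (n % q ^ 2) = fl a T T' r s q n := by
  unfold fl
  rw [chi_mod, chi_mod]

lemma prod_fl (a : ℕ → ℕ) (T T' U : Finset ℕ) (r s y : ℕ) (h1 : T ⊆ U) (h2 : T' ⊆ U) :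
    ∏ q ∈ U, fl a T T' r s q y = ind a T (y + r) * ind a T' (y + s) := by
  unfold fl
  rw [prod_mul_distrib, prod_ite_mem, prod_ite_mem, inter_eq_right.mpr h1, inter_eq_right.mpr h2,
    ind_eq, ind_eq]

/-- the sum of the products over a full period -/
lemma joint (hcrt : St_CRT) (a : ℕ → ℕ) (T T' U : Finset ℕ) (r s : ℕ) (hU : ∀ q ∈ U, q.Prime)
    (h1 : T ⊆ U) (h2 : T' ⊆ U) :
    ∑ y ∈ range (∏ q ∈ U, q ^ 2), ind a T (y + r) * ind a T' (y + s) =
      (∏ q ∈ U, (q : ℝ) ^ 2) *
        ∏ q ∈ U, ((∑ y ∈ range (q ^ 2), fl a T T' r s q y) / (q : ℝ) ^ 2) := by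
  rw [← crt' hcrt U (fl a T T' r s) hU (fun q _ n => fl_mod a T T' r s q n)]
  apply sum_congr rfl
  intro y _
  rw [prod_fl a T T' U r s y h1 h2]

/-- the sum of one function over a full period -/
lemma single (hcrt : St_CRT) (hper : St_PER) (a : ℕ → ℕ) (T U : Finset ℕ) (r : ℕ)
    (hU : ∀ q ∈ U, q.Prime) (ha : ∀ q ∈ U, a q ≤ q ^ 2) (h1 : T ⊆ U) :
    ∑ y ∈ range (∏ q ∈ U, q ^ 2), ind a T (y + r) = (∏ q ∈ U, (q : ℝ) ^ 2) * den a T := by
  have h := joint hcrt a T ∅ U r 0 hU h1 (empty_subset _)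
  have h0 : ∀ n, ind a ∅ n = 1 := by intro n; simp [ind_eq]
  simp only [h0, mul_one] at h
  rw [h]
  congr 1
  have h3 : ∀ q ∈ U, (∑ y ∈ range (q ^ 2), fl a T ∅ r 0 q y) / (q : ℝ) ^ 2 =
      if q ∈ T then (a q : ℝ) / (q : ℝ) ^ 2 else 1 := by
    intro q hq
    have hqp : 0 < q := (hU q hq).pos
    have hq0 : (q : ℝ) ≠ 0 := by exact_mod_cast hqp.ne'
    unfold fl
    by_cases hT : q ∈ T
    · simp only [hT, if_true, notMem_empty, if_false, mul_one]
      rw [loc_one hper a q r hqp (ha q hq)]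
    · simp only [hT, if_false, notMem_empty, mul_one, sum_const, card_range, nsmul_eq_mul]
      push_cast
      field_simp
  rw [prod_congr rfl h3, prod_ite_mem, inter_eq_right.mpr h1]
  rfl

theorem pair (hcrt : St_CRT) (hper : St_PER) : St_PAIR := by
  classical
  intro a P T T' z r s hP hT hT'
  have hUP : T ∪ T' ⊆ P := union_subset hT hT'
  have hU : ∀ q ∈ T ∪ T', q.Prime := fun q hq => (hP q (hUP hq)).1
  have ha : ∀ q ∈ T ∪ T', a q ≤ q ^ 2 := by
    intro q hq
    have h1 := (hP q (hUP hq)).2.2.2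
    have h2 := (hU q hq).two_le
    nlinarith
  have hs1 := single hcrt hper a T (T ∪ T') r hU ha subset_union_left
  have hs2 := single hcrt hper a T' (T ∪ T') s hU ha subset_union_right
  have hj := joint hcrt a T T' (T ∪ T') r s hU subset_union_left subset_union_right
  -- the correlation over the common part
  have hk : kap a (T ∩ T') r s =
      ∏ q ∈ T ∩ T', ((∑ y ∈ range (q ^ 2), fl a T T' r s q y) / (q : ℝ) ^ 2) := by
    have hI : ∀ q ∈ T ∩ T', q.Prime := fun q hq => hU q (mem_union_left _ (mem_inter.mp hq).1)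
    have h := joint hcrt a (T ∩ T') (T ∩ T') (T ∩ T') r s hI (subset_refl _) (subset_refl _)
    unfold kap
    rw [h]
    have hne : (∏ q ∈ T ∩ T', (q : ℝ) ^ 2) ≠ 0 := by
      apply prod_ne_zero_iff.mpr
      intro q hq
      have : (q : ℝ) ≠ 0 := by exact_mod_cast (hI q hq).ne_zero
      positivity
    rw [mul_div_cancel_left₀ _ hne]
    apply prod_congr rfl
    intro q hq
    congr 1
    apply sum_congr rfl
    intro y _
    have h1 := (mem_inter.mp hq).1
    have h2 := (mem_inter.mp hq).2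
    unfold fl
    simp [h1, h2]
  have hj2 : ∏ q ∈ T ∪ T', ((∑ y ∈ range (q ^ 2), fl a T T' r s q y) / (q : ℝ) ^ 2) =
      den a (T \ T') * den a (T' \ T) * kap a (T ∩ T') r s := by
    have h3 : ∀ q ∈ T ∪ T', (∑ y ∈ range (q ^ 2), fl a T T' r s q y) / (q : ℝ) ^ 2 =
        (if q ∈ T \ T' then (a q : ℝ) / (q : ℝ) ^ 2 else 1) *
        (if q ∈ T' \ T then (a q : ℝ) / (q : ℝ) ^ 2 else 1) *
        (if q ∈ T ∩ T' then (∑ y ∈ range (q ^ 2), fl a T T' r s q y) / (q : ℝ) ^ 2 else 1) := by
      intro q hq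
      have hqp : 0 < q := (hU q hq).pos
      by_cases h1 : q ∈ T
      · by_cases h2 : q ∈ T'
        · simp [h1, h2]
        · have h4 : ∑ y ∈ range (q ^ 2), fl a T T' r s q y = a q := by
            rw [← loc_one hper a q r hqp (ha q hq)]
            apply sum_congr rfl
            intro y _
            unfold fl
            simp [h1, h2]
          rw [h4]
          simp [h1, h2]
      · have h2 : q ∈ T' := by
          rcases mem_union.mp hq with h | h
          · exact absurd h h1
          · exact h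
        have h4 : ∑ y ∈ range (q ^ 2), fl a T T' r s q y = a q := by
          rw [← loc_one hper a q s hqp (ha q hq)]
          apply sum_congr rfl
          intro y _
          unfold fl
          simp [h1, h2]
        rw [h4]
        simp [h1, h2]
    rw [prod_congr rfl h3, prod_mul_distrib, prod_mul_distrib, prod_ite_mem, prod_ite_mem,
      prod_ite_mem, hk]
    have e1 : (T ∪ T') ∩ (T \ T') = T \ T' := by
      apply inter_eq_right.mpr
      exact sdiff_subset.trans subset_union_left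
    have e2 : (T ∪ T') ∩ (T' \ T) = T' \ T := by
      apply inter_eq_right.mpr
      exact sdiff_subset.trans subset_union_right
    have e3 : (T ∪ T') ∩ (T ∩ T') = T ∩ T' := by
      apply inter_eq_right.mpr
      exact inter_subset_left.trans subset_union_left
    rw [e1, e2, e3]
    rfl
  rw [hj2] at hj
  have hd1 : den a T = den a (T \ T') * den a (T ∩ T') := by
    unfold den
    rw [← prod_union (disjoint_sdiff_inter T T'), sdiff_union_inter]
  have hd2 : den a T' = den a (T' \ T) * den a (T ∩ T') := by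
    unfold den
    rw [inter_comm T T', ← prod_union (disjoint_sdiff_inter T' T), sdiff_union_inter]
  have hexp : ∀ y ∈ range (∏ q ∈ T ∪ T', q ^ 2),
      (ind a T (y + r) - den a T) * (ind a T' (y + s) - den a T') =
      ind a T (y + r) * ind a T' (y + s) - den a T' * ind a T (y + r) -
        den a T * ind a T' (y + s) + den a T * den a T' := by
    intro y _
    ring
  rw [sum_congr rfl hexp, sum_add_distrib, sum_sub_distrib, sum_sub_distrib, ← mul_sum, ← mul_sum,
    hs1, hs2, hj, sum_const, card_range, nsmul_eq_mul]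
  push_cast
  rw [hd1, hd2]
  ring

end Pool.Agent.H311R5.EP
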